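import Pool.Agent.R899.IG.Univ

/-!
# Isomorphism game algebras, full group C*-algebras, solution groups
-/

set_option autoImplicit false

noncomputable section

namespace Pool.Agent.R899.IG

variable {V W : Type} [Fintype V] [Fintype W]

/-- `g, g'` stand in the same relation (equal, adjacent, or distinct and non-adjacent) in `G` as
`h, h'` do in `H`. -/
def SameRel {V W : Type} (G : SimpleGraph V) (H : SimpleGraph W) (g g' : V) (h h' : W) : Prop :=
  (g = g' ↔ h = h') ∧ (G.Adj g g' ↔ H.Adj h h')

/-- The relations of the isomorphism game of the graphs `G` and `H` for a family `p g h` of elements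
of a unital C*-algebra. -/
structure IsGameFamily (G : SimpleGraph V) (H : SimpleGraph W) (B : Type) [CStarAlgebra B]
    (p : V → W → B) : Prop where
  sa : ∀ g h, star (p g h) = p g h
  idem : ∀ g h, p g h * p g h = p g h
  row : ∀ g, ∑ h, p g h = 1
  col : ∀ h, ∑ g, p g h = 1
  rel : ∀ g g' h h', ¬ SameRel G H g g' h h' → p g h * p g' h' = 0

/-- `A`, with the family `p`, is the isomorphism game algebra `𝒜(G,H)`: the universal unital
C*-algebra generated by a family satisfying the relations of the game. -/
structure IsIsoGameAlgebra (G : SimpleGraph V) (H : SimpleGraph W) (A : Type) [CStarAlgebra A]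
    (p : V → W → A) : Prop where
  family : IsGameFamily G H A p
  dense : Dense (StarAlgebra.adjoin ℂ {a : A | ∃ g h, p g h = a} : Set A)
  univ : ∀ (B : Type) [CStarAlgebra B] (q : V → W → B), IsGameFamily G H B q →
    ∃ φ : A →⋆ₐ[ℂ] B, ∀ g h, φ (p g h) = q g h

/-- `C`, with the unitary representation `u`, is the full group C*-algebra of the discrete group
`Γ`: the image of the group algebra is dense and every unitary representation of `Γ` in a unital
C*-algebra factors through `u`. -/
structure IsFullGroupCStar (Γ : Type) [Group Γ] (C : Type) [CStarAlgebra C]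
    (u : Γ →* unitary C) : Prop where
  dense : Dense (Submodule.span ℂ (Set.range fun g : Γ => (u g : C)) : Set C)
  univ : ∀ (B : Type) [CStarAlgebra B] (v : Γ →* unitary B),
    ∃ φ : C →⋆ₐ[ℂ] B, ∀ g : Γ, φ (u g) = v g

/-- Generators of the solution group: `none` is `J`, `some i` is `g_i`. -/
abbrev gen {n : ℕ} (x : Option (Fin n)) : FreeGroup (Option (Fin n)) := FreeGroup.of x

/-- The relators of the solution group of the binary linear system `M x = b`. -/
inductive SolRel {m n : ℕ} (M : Matrix (Fin m) (Fin n) (ZMod 2)) (b : Fin m → ZMod 2) :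
    FreeGroup (Option (Fin n)) → Prop
  | sq (x : Option (Fin n)) : SolRel M b (gen x ^ 2)
  | central (i : Fin n) : SolRel M b (gen none * gen (some i) * (gen none)⁻¹ * (gen (some i))⁻¹)
  | comm (k : Fin m) (i j : Fin n) (hi : M k i = 1) (hj : M k j = 1) :
      SolRel M b (gen (some i) * gen (some j) * (gen (some i))⁻¹ * (gen (some j))⁻¹)
  | eqn (k : Fin m) : SolRel M b
      ((List.ofFn fun i : Fin n => if M k i = 1 then gen (some i) else 1).prod *
        (if b k = 1 then gen none else 1)⁻¹)

/-- The solution group `Γ(M,b)` of the binary linear system `M x = b`. -/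
abbrev SolutionGroup {m n : ℕ} (M : Matrix (Fin m) (Fin n) (ZMod 2)) (b : Fin m → ZMod 2) : Type :=
  PresentedGroup {r : FreeGroup (Option (Fin n)) | SolRel M b r}

/-! ### Existence -/

/-- the game relations for uncurried families -/
def gameRel (G : SimpleGraph V) (H : SimpleGraph W) (B : Type) [CStarAlgebra B]
    (p : V × W → B) : Prop := IsGameFamily G H B fun g h => p (g, h)

lemma proj_norm_le {B : Type} [CStarAlgebra B] {p : B} (h1 : star p = p) (h2 : p * p = p) :
    ‖p‖ ≤ 1 := by
  have h : ‖p‖ * ‖p‖ = ‖p‖ := by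
    rw [← CStarRing.norm_star_mul_self, h1, h2]
  nlinarith [norm_nonneg p, sq_nonneg (‖p‖ - 1)]

lemma eq_of_coords {A : Type} [CStarAlgebra A] {K : Type} {B : K → Type}
    [∀ k, CStarAlgebra (B k)] {π : ∀ k, A →⋆ₐ[ℂ] B k} (hπ : ∀ a, (∀ k, π k a = 0) → a = 0)
    {a b : A} (h : ∀ k, π k a = π k b) : a = b := by
  have := hπ (a - b) fun k => by rw [map_sub, h, sub_self]
  exact sub_eq_zero.1 this

lemma gameRel_good (G : SimpleGraph V) (H : SimpleGraph W) :
    GoodRel (I := V × W) (fun B _ p => gameRel G H B p) where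
  star := ⟨id, fun B _ p hp i => hp.sa i.1 i.2⟩
  norm := fun B _ p hp i => proj_norm_le (hp.sa i.1 i.2) (hp.idem i.1 i.2)
  coords := by
    intro A _ K B _ π hπ p hp
    refine ⟨fun g h => ?_, fun g h => ?_, fun g => ?_, fun h => ?_, fun g g' h h' hs => ?_⟩
    · exact eq_of_coords hπ fun k => by rw [map_star]; exact (hp k).sa g h
    · exact eq_of_coords hπ fun k => by rw [map_mul]; exact (hp k).idem g h
    · exact eq_of_coords hπ fun k => by rw [map_sum, map_one]; exact (hp k).row g
    · exact eq_of_coords hπ fun k => by rw [map_sum, map_one]; exact (hp k).col h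
    · exact eq_of_coords hπ fun k => by rw [map_mul, map_zero]; exact (hp k).rel g g' h h' hs

theorem exists_gameAlgebra (G : SimpleGraph V) (H : SimpleGraph W)
    (hne : ∃ (B : Type) (_ : CStarAlgebra B) (q : V → W → B), Nontrivial B ∧
      IsGameFamily G H B q) :
    ∃ (A : Type) (_ : CStarAlgebra A) (p : V → W → A), IsIsoGameAlgebra G H A p := by
  obtain ⟨B, inst, q, hB, hq⟩ := hne
  obtain ⟨A, instA, p, h1, h2, h3⟩ := exists_univ (gameRel_good G H)
    ⟨⟨B, inst, hB, fun x => q x.1 x.2, hq⟩⟩
  refine ⟨A, instA, fun g h => p (g, h), h1, ?_, ?_⟩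
  · refine h2.mono ?_
    rintro _ ⟨x, rfl⟩
    have h4 : ∀ g h, p (g, h) ∈ StarAlgebra.adjoin ℂ {a : A | ∃ g h, p (g, h) = a} :=
      fun g h => StarAlgebra.subset_adjoin ℂ _ ⟨g, h, rfl⟩
    change ev p x ∈ StarAlgebra.adjoin ℂ {a : A | ∃ g h, p (g, h) = a}
    induction x using FreeAlgebra.induction with
    | grade0 r => rw [AlgHom.commutes]; exact algebraMap_mem _ r
    | grade1 i => rw [ev_ι]; exact h4 i.1 i.2
    | mul a b ha hb => rw [map_mul]; exact mul_mem ha hb
    | add a b ha hb => rw [map_add]; exact add_mem ha hb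
  · intro B _ q hq
    obtain ⟨φ, hφ⟩ := h3 B (fun x => q x.1 x.2) hq
    exact ⟨φ, fun g h => hφ (g, h)⟩

/-- unitary representations as families -/
def grpRel (Γ : Type) [Group Γ] (B : Type) [CStarAlgebra B] (p : Γ → B) : Prop :=
  p 1 = 1 ∧ (∀ g h, p (g * h) = p g * p h) ∧ ∀ g, star (p g) = p g⁻¹

lemma grpRel_good (Γ : Type) [Group Γ] : GoodRel (I := Γ) (fun B _ p => grpRel Γ B p) where
  star := ⟨fun g => g⁻¹, fun B _ p hp g => hp.2.2 g⟩
  norm := by
    intro B _ p hp g
    have h1 : star (p g) * p g = 1 := by rw [hp.2.2, ← hp.2.1, inv_mul_cancel, hp.1]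
    have h2 : ‖p g‖ * ‖p g‖ ≤ 1 := by
      rw [← CStarRing.norm_star_mul_self, h1]
      exact norm_one_le
    nlinarith [norm_nonneg (p g)]
  coords := by
    intro A _ K B _ π hπ p hp
    refine ⟨?_, fun g h => ?_, fun g => ?_⟩
    · exact eq_of_coords hπ fun k => by rw [map_one]; exact (hp k).1
    · exact eq_of_coords hπ fun k => by rw [map_mul]; exact (hp k).2.1 g h
    · exact eq_of_coords hπ fun k => by rw [map_star]; exact (hp k).2.2 g

theorem exists_groupCStar (Γ : Type) [Group Γ] :
    ∃ (C : Type) (_ : CStarAlgebra C) (u : Γ →* unitary C), IsFullGroupCStar Γ C u := by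
  obtain ⟨A, instA, p, h1, h2, h3⟩ := exists_univ (grpRel_good Γ)
    ⟨⟨ℂ, inferInstance, inferInstance, fun _ => 1, rfl, fun _ _ => (one_mul 1).symm,
      fun _ => star_one ℂ⟩⟩
  let u : Γ →* unitary A :=
    { toFun := fun g => ⟨p g, Unitary.mem_iff.2
        ⟨by rw [h1.2.2, ← h1.2.1, inv_mul_cancel, h1.1],
          by rw [h1.2.2, ← h1.2.1, mul_inv_cancel, h1.1]⟩⟩
      map_one' := Subtype.ext h1.1
      map_mul' := fun g h => Subtype.ext (h1.2.1 g h) }
  refine ⟨A, instA, u, ?_, ?_⟩
  · refine h2.mono ?_
    rintro _ ⟨x, rfl⟩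
    let S : Submodule ℂ A := Submodule.span ℂ (Set.range fun g : Γ => (u g : A))
    change ev p x ∈ S
    have hp : ∀ g, p g ∈ S := fun g => Submodule.subset_span ⟨g, rfl⟩
    have hmul : ∀ a ∈ S, ∀ b ∈ S, a * b ∈ S := by
      intro a ha b hb
      induction ha using Submodule.span_induction with
      | mem a ha =>
        obtain ⟨g, rfl⟩ := ha
        induction hb using Submodule.span_induction with
        | mem b hb =>
          obtain ⟨h, rfl⟩ := hb
          change p g * p h ∈ S
          rw [← h1.2.1]
          exact hp _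
        | zero => rw [mul_zero]; exact S.zero_mem
        | add x y _ _ hx hy => rw [mul_add]; exact S.add_mem hx hy
        | smul c x _ hx => rw [mul_smul_comm]; exact S.smul_mem c hx
      | zero => rw [zero_mul]; exact S.zero_mem
      | add x y _ _ hx hy => rw [add_mul]; exact S.add_mem hx hy
      | smul c x _ hx => rw [smul_mul_assoc]; exact S.smul_mem c hx
    induction x using FreeAlgebra.induction with
    | grade0 r =>
      rw [AlgHom.commutes, Algebra.algebraMap_eq_smul_one, ← h1.1]
      exact S.smul_mem r (hp 1)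
    | grade1 i => rw [ev_ι]; exact hp i
    | mul a b ha hb => rw [map_mul]; exact hmul _ ha _ hb
    | add a b ha hb => rw [map_add]; exact S.add_mem ha hb
  · intro B _ v
    obtain ⟨φ, hφ⟩ := h3 B (fun g => (v g : B)) ⟨by change (v 1 : B) = 1; rw [map_one]; rfl,
      fun g h => by change (v (g * h) : B) = v g * v h; rw [map_mul]; rfl,
      fun g => by change star (v g : B) = v g⁻¹; rw [map_inv]; rfl⟩
    exact ⟨φ, fun g => hφ g⟩

/-! ### Characters -/

/-- a family of scalars for the isomorphism game gives an isomorphism -/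
theorem iso_of_scalar {G : SimpleGraph V} {H : SimpleGraph W} {x : V → W → ℂ}
    (hx : IsGameFamily G H ℂ x) : Nonempty (G ≃g H) := by
  classical
  have h01 : ∀ g h, x g h ≠ 0 → x g h = 1 := fun g h hne =>
    mul_left_cancel₀ hne (by rw [hx.idem, mul_one])
  have hrow : ∀ g, ∃ h, x g h = 1 := by
    intro g
    by_contra hcon
    push Not at hcon
    have h0 : ∑ h, x g h = 0 := Finset.sum_eq_zero fun h _ => by
      by_contra hne
      exact hcon h (h01 g h hne)
    rw [hx.row] at h0
    exact one_ne_zero h0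
  have hcol : ∀ h, ∃ g, x g h = 1 := by
    intro h
    by_contra hcon
    push Not at hcon
    have h0 : ∑ g, x g h = 0 := Finset.sum_eq_zero fun g _ => by
      by_contra hne
      exact hcon g (h01 g h hne)
    rw [hx.col] at h0
    exact one_ne_zero h0
  choose f hf using hrow
  have hrel : ∀ g g' h h', x g h = 1 → x g' h' = 1 → SameRel G H g g' h h' := by
    intro g g' h h' h1 h2
    by_contra hcon
    have := hx.rel g g' h h' hcon
    rw [h1, h2, one_mul] at this
    exact one_ne_zero this
  have hbij : Function.Bijective f := by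
    constructor
    · intro g g' hg
      exact (hrel g g' _ _ (hf g) (hf g')).1.2 hg
    · intro h
      obtain ⟨g, hg⟩ := hcol h
      exact ⟨g, ((hrel g g _ _ (hf g) hg).1.1 rfl)⟩
  exact ⟨⟨Equiv.ofBijective f hbij, fun {a b} => (hrel a b _ _ (hf a) (hf b)).2.symm⟩⟩

/-- the image of a game family under a unital star homomorphism -/
lemma IsGameFamily.map {G : SimpleGraph V} {H : SimpleGraph W} {A B : Type} [CStarAlgebra A]
    [CStarAlgebra B] {p : V → W → A} (hp : IsGameFamily G H A p) (φ : A →⋆ₐ[ℂ] B) :
    IsGameFamily G H B fun g h => φ (p g h) where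
  sa g h := by rw [← map_star, hp.sa]
  idem g h := by rw [← map_mul, hp.idem]
  row g := by rw [← map_sum, hp.row, map_one]
  col h := by rw [← map_sum, hp.col, map_one]
  rel g g' h h' hs := by rw [← map_mul, hp.rel g g' h h' hs, map_zero]

open Classical in
/-- the game family of an isomorphism -/
lemma family_of_iso {G : SimpleGraph V} {H : SimpleGraph W} (e : G ≃g H) (B : Type)
    [CStarAlgebra B] : IsGameFamily G H B fun g h => if e g = h then (1 : B) else 0 where
  sa g h := by split_ifs <;> simp
  idem g h := by split_ifs <;> simp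
  row g := by simp
  col h := by
    rw [Finset.sum_eq_single (e.symm h)]
    · simp
    · intro g _ hg
      rw [if_neg]
      intro h'
      exact hg (by rw [← h']; simp)
    · simp
  rel g g' h h' hs := by
    by_cases h1 : e g = h
    · by_cases h2 : e g' = h'
      · exfalso
        apply hs
        subst h1 h2
        exact ⟨e.injective.eq_iff.symm, e.map_adj_iff.symm⟩
      · rw [if_neg h2, mul_zero]
    · rw [if_neg h1, zero_mul]

theorem hom_iff_iso {G : SimpleGraph V} {H : SimpleGraph W} {A : Type} [CStarAlgebra A]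
    {p : V → W → A} (hA : IsIsoGameAlgebra G H A p) {Γ : Type} [Group Γ] {C : Type}
    [CStarAlgebra C] {u : Γ →* unitary C} (hC : IsFullGroupCStar Γ C u) :
    Nonempty (A →⋆ₐ[ℂ] C) ↔ Nonempty (G ≃g H) := by
  constructor
  · rintro ⟨φ⟩
    obtain ⟨ε, _⟩ := hC.univ ℂ 1
    exact iso_of_scalar ((hA.family.map φ).map ε)
  · rintro ⟨e⟩
    obtain ⟨φ, _⟩ := hA.univ C _ (family_of_iso e C)
    exact ⟨φ⟩

end Pool.Agent.R899.IG
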