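import Mathlib

/-!
# The magic square
-/

set_option autoImplicit false

namespace Pool.Agent.R899.IG

/-- Equations of the magic square: `(false, r)` is the row `r`, `(true, c)` is the column `c`. -/
abbrev Eqn : Type := Bool × Fin 3

/-- The `t`-th variable of an equation; the variables are the cells of a `3 × 3` square. -/
def vr : Eqn → Fin 3 → Fin 3 × Fin 3
  | (false, r), t => (r, t)
  | (true, c), t => (t, c)

/-- The right hand sides: the last column has odd sum, the other equations have even sum. -/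
def oddLast (l : Eqn) : ZMod 2 := if l = (true, 2) then 1 else 0

/-- Solutions of single equations. -/
abbrev Loc (b : Eqn → ZMod 2) : Type :=
  {q : Eqn × (Fin 3 → ZMod 2) // ∑ t, q.2 t = b q.1}

/-- The graph of the system: two solutions of single equations are adjacent if they give different
values to a common variable. -/
def sysGraph (b : Eqn → ZMod 2) : SimpleGraph (Loc b) where
  Adj q q' := ∃ t t', vr q.1.1 t = vr q'.1.1 t' ∧ q.1.2 t ≠ q'.1.2 t'
  symm := ⟨by
    rintro q q' ⟨t, t', h1, h2⟩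
    exact ⟨t', t, h1.symm, h2.symm⟩⟩
  loopless := ⟨by
    rintro ⟨⟨l, f⟩, hf⟩ ⟨t, t', h1, h2⟩
    rcases l with ⟨_ | _, r⟩
    · simp only [vr, Prod.mk.injEq, true_and] at h1
      exact h2 (by rw [h1])
    · simp only [vr, Prod.mk.injEq, and_true] at h1
      exact h2 (by rw [h1])⟩

lemma vr_inj (l : Eqn) (t t' : Fin 3) (h : vr l t = vr l t') : t = t' := by
  rcases l with ⟨_ | _, r⟩
  · simpa [vr] using h
  · simpa [vr] using h

/-! ### The two graphs are not isomorphic -/

lemma not_iso : IsEmpty (sysGraph oddLast ≃g sysGraph 0) := by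
  refine ⟨fun e => ?_⟩
  let z : Eqn → Loc (0 : Eqn → ZMod 2) := fun l => ⟨(l, 0), by simp⟩
  have hz : ∀ l k, ¬ (sysGraph 0).Adj (z l) (z k) := by
    rintro l k ⟨t, t', _, h⟩
    exact h rfl
  have hzi : Function.Injective z := fun l k h => by
    have := congrArg (fun q => q.1.1) h
    simpa [z] using this
  let y : Eqn → Loc oddLast := fun l => e.symm (z l)
  have hy : ∀ l k, ¬ (sysGraph oddLast).Adj (y l) (y k) := by
    intro l k h
    exact hz l k (e.symm.map_adj_iff.1 h)
  have hyi : Function.Injective y := e.symm.injective.comp hzi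
  have key : ∀ l k, (y l).1.1 = (y k).1.1 → l = k := by
    intro l k h
    by_contra hne
    have h1 : y l ≠ y k := fun h' => hne (hyi h')
    have h2 : (y l).1.2 ≠ (y k).1.2 := by
      intro h'
      exact h1 (Subtype.ext (Prod.ext h h'))
    obtain ⟨t, ht⟩ := Function.ne_iff.1 h2
    exact hy l k ⟨t, t, by rw [h], ht⟩
  have hbij : Function.Bijective fun l => (y l).1.1 :=
    Finite.injective_iff_bijective.1 fun l k h => key l k h
  choose s hs using hbij.2
  -- the solution of the equation `m`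
  let w : Eqn → Fin 3 → ZMod 2 := fun m => (y (s m)).1.2
  have hw : ∀ m, ∑ t, w m t = oddLast m := by
    intro m
    have := (y (s m)).2
    rw [show (y (s m)).1.1 = m from hs m] at this
    exact this
  have hc : ∀ r c : Fin 3, w (false, r) c = w (true, c) r := by
    intro r c
    by_contra hne
    refine hy (s (false, r)) (s (true, c)) ⟨c, r, ?_, hne⟩
    rw [show (y (s (false, r))).1.1 = (false, r) from hs _,
      show (y (s (true, c))).1.1 = (true, c) from hs _]
    rfl
  have h1 : ∑ r : Fin 3, ∑ c : Fin 3, w (false, r) c = 0 := by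
    simp only [hw]
    decide
  have h2 : ∑ c : Fin 3, ∑ r : Fin 3, w (true, c) r = 1 := by
    simp only [hw]
    decide
  rw [Finset.sum_comm] at h2
  have h3 : ∑ r : Fin 3, ∑ c : Fin 3, w (false, r) c = ∑ r : Fin 3, ∑ c : Fin 3, w (true, c) r :=
    Finset.sum_congr rfl fun r _ => Finset.sum_congr rfl fun c _ => hc r c
  rw [h1, h2] at h3
  exact absurd h3 (by decide)

/-! ### The operator solution -/

/-- The nine observables, as integral `4 × 4` matrices. -/
def obs : Fin 3 × Fin 3 → Matrix (Fin 4) (Fin 4) ℤ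
  | (0, 0) => !![0, 0, 1, 0; 0, 0, 0, 1; 1, 0, 0, 0; 0, 1, 0, 0]
  | (0, 1) => !![0, 1, 0, 0; 1, 0, 0, 0; 0, 0, 0, 1; 0, 0, 1, 0]
  | (0, 2) => !![0, 0, 0, 1; 0, 0, 1, 0; 0, 1, 0, 0; 1, 0, 0, 0]
  | (1, 0) => !![1, 0, 0, 0; 0, -1, 0, 0; 0, 0, 1, 0; 0, 0, 0, -1]
  | (1, 1) => !![1, 0, 0, 0; 0, 1, 0, 0; 0, 0, -1, 0; 0, 0, 0, -1]
  | (1, 2) => !![1, 0, 0, 0; 0, -1, 0, 0; 0, 0, -1, 0; 0, 0, 0, 1]
  | (2, 0) => !![0, 0, 1, 0; 0, 0, 0, -1; 1, 0, 0, 0; 0, -1, 0, 0]
  | (2, 1) => !![0, 1, 0, 0; 1, 0, 0, 0; 0, 0, 0, -1; 0, 0, -1, 0]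
  | (2, 2) => !![0, 0, 0, -1; 0, 0, 1, 0; 0, 1, 0, 0; -1, 0, 0, 0]

/-- the sign of a bit -/
def sg (x : ZMod 2) : ℤ := if x = 0 then 1 else -1

/-- four times the spectral projection of an equation for given signs -/
def spec (l : Eqn) (h : Fin 3 → ZMod 2) : Matrix (Fin 4) (Fin 4) ℤ :=
  1 + sg (h 0) • obs (vr l 0) + sg (h 1) • obs (vr l 1) + sg (h 2) • obs (vr l 2)

set_option maxRecDepth 100000 in
lemma spec_transpose : ∀ (l : Eqn) (h : Fin 3 → ZMod 2), (spec l h).transpose = spec l h := by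
  decide +kernel

set_option maxRecDepth 100000 in
lemma spec_sq : ∀ (l : Eqn) (h : Fin 3 → ZMod 2), ∑ t, h t = oddLast l →
    spec l h * spec l h = 4 • spec l h := by
  decide +kernel

set_option synthInstance.maxSize 100000 in
set_option maxRecDepth 100000 in
lemma spec_mul : ∀ (l l' : Eqn) (t t' : Fin 3), vr l t = vr l' t' → ∀ h : Fin 3 → ZMod 2,
    ∑ t, h t = oddLast l → ∀ h' : Fin 3 → ZMod 2, ∑ t, h' t = oddLast l' → h t ≠ h' t' →
    spec l h * spec l' h' = 0 := by
  decide +kernel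

set_option maxRecDepth 100000 in
lemma spec_sum : ∀ l : Eqn, ∑ h : {h : Fin 3 → ZMod 2 // ∑ t, h t = oddLast l}, spec l h.1 = 4 • 1 := by
  decide +kernel

end Pool.Agent.R899.IG
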