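import Pool.Agent.R899.IG.Defs
import Pool.Agent.R899.IG.Magic

/-!
# The magic square graphs have a nonzero isomorphism game algebra
-/

set_option autoImplicit false

noncomputable section

namespace Pool.Agent.R899.IG

/-- the bounded operators on a Hilbert space of dimension four -/
abbrev B4 : Type := EuclideanSpace ℂ (Fin 4) →L[ℂ] EuclideanSpace ℂ (Fin 4)

/-- integral matrices as operators -/
def toOp : Matrix (Fin 4) (Fin 4) ℤ →+* B4 :=
  ((Matrix.toEuclideanCLM (n := Fin 4) (𝕜 := ℂ)).toRingEquiv : Matrix (Fin 4) (Fin 4) ℂ ≃+* B4).toRingHom.comp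
    (Int.castRingHom ℂ).mapMatrix

lemma toOp_star (M : Matrix (Fin 4) (Fin 4) ℤ) : star (toOp M) = toOp M.transpose := by
  have h : star ((Int.castRingHom ℂ).mapMatrix M) = (Int.castRingHom ℂ).mapMatrix M.transpose := by
    ext i j
    simp [Matrix.star_apply]
  change star (Matrix.toEuclideanCLM (n := Fin 4) (𝕜 := ℂ) ((Int.castRingHom ℂ).mapMatrix M)) =
    Matrix.toEuclideanCLM (n := Fin 4) (𝕜 := ℂ) ((Int.castRingHom ℂ).mapMatrix M.transpose)
  rw [← map_star, h]

instance : Nontrivial B4 := inferInstance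

/-- the projections -/
def E (l : Eqn) (h : Fin 3 → ZMod 2) : B4 := (4 : ℂ)⁻¹ • toOp (spec l h)

lemma E_star (l : Eqn) (h : Fin 3 → ZMod 2) : star (E l h) = E l h := by
  unfold E
  rw [star_smul, toOp_star, spec_transpose]
  congr 1
  simp

lemma E_idem {l : Eqn} {h : Fin 3 → ZMod 2} (hh : ∑ t, h t = oddLast l) :
    E l h * E l h = E l h := by
  unfold E
  rw [smul_mul_smul_comm, ← map_mul, spec_sq l h hh, map_nsmul, ← Nat.cast_smul_eq_nsmul ℂ, smul_smul]
  congr 1
  norm_num

lemma E_mul {l l' : Eqn} {h h' : Fin 3 → ZMod 2} (hh : ∑ t, h t = oddLast l)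
    (hh' : ∑ t, h' t = oddLast l') {t t' : Fin 3} (ht : vr l t = vr l' t') (hne : h t ≠ h' t') :
    E l h * E l' h' = 0 := by
  unfold E
  rw [smul_mul_smul_comm, ← map_mul, spec_mul l l' t t' ht h hh h' hh' hne]
  exact (congrArg (fun x : B4 => ((4 : ℂ)⁻¹ * (4 : ℂ)⁻¹) • x) (map_zero toOp)).trans
    (smul_zero ((4 : ℂ)⁻¹ * (4 : ℂ)⁻¹))

lemma E_sum (l : Eqn) : ∑ h : {h : Fin 3 → ZMod 2 // ∑ t, h t = oddLast l}, E l h.1 = 1 := by
  unfold E
  rw [← Finset.smul_sum, ← map_sum, spec_sum, map_nsmul, map_one, ← Nat.cast_smul_eq_nsmul ℂ,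
    smul_smul]
  norm_num

/-- the game family of the magic square -/
def fam (q : Loc oddLast) (q' : Loc (0 : Eqn → ZMod 2)) : B4 :=
  if q.1.1 = q'.1.1 then E q.1.1 (q.1.2 + q'.1.2) else 0

lemma sum_add_eq (q : Loc oddLast) (q' : Loc (0 : Eqn → ZMod 2)) :
    ∑ t, (q.1.2 + q'.1.2) t = oddLast q.1.1 := by
  simp only [Pi.add_apply, Finset.sum_add_distrib]
  rw [q.2, q'.2]
  simp

/-- fibres over an equation -/
lemma sum_fibre (b : Eqn → ZMod 2) (l : Eqn) (F : (Fin 3 → ZMod 2) → B4) :
    ∑ q : Loc b, (if l = q.1.1 then F q.1.2 else 0) =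
      ∑ f : {f : Fin 3 → ZMod 2 // ∑ t, f t = b l}, F f.1 := by
  classical
  rw [← Finset.sum_filter]
  refine Finset.sum_bij' (i := fun q hq => ⟨q.1.2, ?_⟩) (j := fun f _ => ⟨(l, f.1), f.2⟩) ?_ ?_ ?_ ?_ ?_
  · have h := q.2
    rw [← (Finset.mem_filter.1 hq).2] at h
    exact h
  · intro q hq; exact Finset.mem_univ _
  · intro f hf; simp
  · intro q hq
    apply Subtype.ext
    exact Prod.ext (Finset.mem_filter.1 hq).2 rfl
  · intro f hf; rfl
  · intro q hq; rfl

lemma add_self_zero (f g : Fin 3 → ZMod 2) : f + (f + g) = g := by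
  have : ∀ x : ZMod 2, x + x = 0 := by decide
  funext t
  simp only [Pi.add_apply]
  rw [← add_assoc, this, zero_add]

lemma add_self_zero' (f g : Fin 3 → ZMod 2) : f + g + g = f := by
  have : ∀ x : ZMod 2, x + x = 0 := by decide
  funext t
  simp only [Pi.add_apply]
  rw [add_assoc, this, add_zero]

lemma fam_family : IsGameFamily (sysGraph oddLast) (sysGraph 0) B4 fam where
  sa q q' := by
    unfold fam
    split_ifs
    · exact E_star _ _
    · exact star_zero _
  idem q q' := by
    unfold fam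
    split_ifs
    · exact E_idem (sum_add_eq q q')
    · exact mul_zero _
  row q := by
    unfold fam
    rw [sum_fibre 0 q.1.1 (fun f => E q.1.1 (q.1.2 + f)), ← E_sum q.1.1]
    refine Finset.sum_bij' (i := fun f _ => ⟨q.1.2 + f.1, ?_⟩) (j := fun f _ => ⟨q.1.2 + f.1, ?_⟩)
      ?_ ?_ ?_ ?_ ?_
    · simp only [Pi.add_apply, Finset.sum_add_distrib]
      rw [q.2, f.2]; simp
    · simp only [Pi.add_apply, Finset.sum_add_distrib]
      rw [q.2, f.2]
      have : ∀ x : ZMod 2, x + x = 0 := by decide
      exact this _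
    · intro f _; exact Finset.mem_univ _
    · intro f _; exact Finset.mem_univ _
    · intro f _; exact Subtype.ext (add_self_zero _ _)
    · intro f _; exact Subtype.ext (add_self_zero _ _)
    · intro f _; rfl
  col q := by
    unfold fam
    have h1 : ∀ q' : Loc oddLast, (if q'.1.1 = q.1.1 then E q'.1.1 (q'.1.2 + q.1.2) else 0) =
        if q.1.1 = q'.1.1 then E q.1.1 (q'.1.2 + q.1.2) else 0 := by
      intro q'
      by_cases h : q'.1.1 = q.1.1
      · rw [if_pos h, if_pos h.symm, h]
      · rw [if_neg h, if_neg (fun h' => h h'.symm)]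
    rw [Finset.sum_congr rfl fun q' _ => h1 q',
      sum_fibre oddLast q.1.1 (fun f => E q.1.1 (f + q.1.2)), ← E_sum q.1.1]
    refine Finset.sum_bij' (i := fun f _ => ⟨f.1 + q.1.2, ?_⟩) (j := fun f _ => ⟨f.1 + q.1.2, ?_⟩)
      ?_ ?_ ?_ ?_ ?_
    · simp only [Pi.add_apply, Finset.sum_add_distrib]
      rw [q.2, f.2]; simp
    · simp only [Pi.add_apply, Finset.sum_add_distrib]
      rw [q.2, f.2]; simp
    · intro f _; exact Finset.mem_univ _
    · intro f _; exact Finset.mem_univ _
    · intro f _; exact Subtype.ext (add_self_zero' _ _)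
    · intro f _; exact Subtype.ext (add_self_zero' _ _)
    · intro f _; rfl
  rel q r q' r' hs := by
    unfold fam
    by_cases h1 : q.1.1 = q'.1.1
    swap
    · rw [if_neg h1, zero_mul]
    by_cases h2 : r.1.1 = r'.1.1
    swap
    · rw [if_neg h2, mul_zero]
    rw [if_pos h1, if_pos h2]
    have key : ∀ t t', vr q.1.1 t = vr r.1.1 t' →
        (q.1.2 + q'.1.2) t ≠ (r.1.2 + r'.1.2) t' →
        E q.1.1 (q.1.2 + q'.1.2) * E r.1.1 (r.1.2 + r'.1.2) = 0 := fun t t' ht hne =>
      E_mul (sum_add_eq q q') (sum_add_eq r r') ht hne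
    -- cancellation in `ZMod 2`
    have hc : ∀ a b c d : ZMod 2, a = c → b ≠ d → a + b ≠ c + d := by decide
    have hc' : ∀ a b c d : ZMod 2, a ≠ c → b = d → a + b ≠ c + d := by decide
    unfold SameRel at hs
    by_cases h3 : q.1.1 = r.1.1
    · -- the same equation
      have hqr : ∀ t, q.1.2 t ≠ r.1.2 t → (sysGraph oddLast).Adj q r := fun t ht =>
        ⟨t, t, by rw [h3], ht⟩
      have hqr' : ∀ t, q'.1.2 t ≠ r'.1.2 t → (sysGraph 0).Adj q' r' := fun t ht =>
        ⟨t, t, by rw [← h1, ← h2, h3], ht⟩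
      by_cases h4 : q.1.2 + q'.1.2 = r.1.2 + r'.1.2
      · exfalso
        apply hs
        have h5 : q = r ↔ q' = r' := by
          constructor
          · rintro rfl
            apply Subtype.ext
            refine Prod.ext (by rw [← h1, ← h2]) ?_
            exact add_left_cancel h4
          · rintro rfl
            apply Subtype.ext
            refine Prod.ext h3 ?_
            exact add_right_cancel h4
        refine ⟨h5, ?_⟩
        constructor
        · intro h
          by_contra h6
          apply (sysGraph oddLast).ne_of_adj h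
          rw [h5]
          apply Subtype.ext
          refine Prod.ext (by rw [← h1, ← h2, h3]) ?_
          funext t
          by_contra h7
          exact h6 (hqr' t h7)
        · intro h
          by_contra h6
          apply (sysGraph 0).ne_of_adj h
          rw [← h5]
          apply Subtype.ext
          refine Prod.ext h3 ?_
          funext t
          by_contra h7
          exact h6 (hqr t h7)
      · obtain ⟨t, ht⟩ := Function.ne_iff.1 h4
        exact key t t (by rw [h3]) ht
    · have h4 : q ≠ r := fun h => h3 (by rw [h])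
      have h5 : q' ≠ r' := fun h => h3 (by rw [h1, h2, h])
      have h6 : ¬ ((sysGraph oddLast).Adj q r ↔ (sysGraph 0).Adj q' r') := fun h =>
        hs ⟨iff_of_false h4 h5, h⟩
      by_cases h7 : (sysGraph oddLast).Adj q r
      · have h8 : ¬ (sysGraph 0).Adj q' r' := fun h => h6 (iff_of_true h7 h)
        obtain ⟨t, t', ht, hne⟩ := h7
        refine key t t' ht (hc' _ _ _ _ hne ?_)
        by_contra h9
        exact h8 ⟨t, t', by rw [← h1, ← h2, ht], h9⟩
      · have h8 : (sysGraph 0).Adj q' r' := by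
          by_contra h
          exact h6 (iff_of_false h7 h)
        obtain ⟨t, t', ht, hne⟩ := h8
        rw [← h1, ← h2] at ht
        refine key t t' ht (hc _ _ _ _ ?_ hne)
        by_contra h9
        exact h7 ⟨t, t', ht, h9⟩

/-- The isomorphism game algebra of the two magic square graphs exists and every such algebra is
nonzero. -/
theorem nonzero {A : Type} [CStarAlgebra A] {p : Loc oddLast → Loc (0 : Eqn → ZMod 2) → A}
    (hA : IsIsoGameAlgebra (sysGraph oddLast) (sysGraph 0) A p) : Nontrivial A := by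
  obtain ⟨φ, _⟩ := hA.univ B4 fam fam_family
  exact φ.toRingHom.domain_nontrivial

end Pool.Agent.R899.IG
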