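import Mathlib

/-!
# Universal unital C*-algebras

Existence of the universal unital C*-algebra generated by a family of elements of norm at most one
which satisfies relations that can be checked in a jointly faithful family of representations.
-/

set_option autoImplicit false

noncomputable section

namespace Pool.Agent.R899.IG

open scoped ENNReal

variable {I : Type}

/-- Relations `R` on families indexed by `I` of elements of unital C*-algebras for which the
universal C*-algebra can be constructed. -/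
structure GoodRel (R : ∀ (B : Type) [CStarAlgebra B], (I → B) → Prop) : Prop where
  star : ∃ σ : I → I, ∀ (B : Type) [CStarAlgebra B] (p : I → B), R B p → ∀ i, star (p i) = p (σ i)
  norm : ∀ (B : Type) [CStarAlgebra B] (p : I → B), R B p → ∀ i, ‖p i‖ ≤ 1
  coords : ∀ (A : Type) [CStarAlgebra A] (K : Type) (B : K → Type) [∀ k, CStarAlgebra (B k)]
    (π : ∀ k, A →⋆ₐ[ℂ] B k), (∀ a, (∀ k, π k a = 0) → a = 0) →
    ∀ p : I → A, (∀ k, R (B k) (fun i => π k (p i))) → R A p

/-- evaluation of noncommutative polynomials -/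
def ev {B : Type} [CStarAlgebra B] (p : I → B) : FreeAlgebra ℂ I →ₐ[ℂ] B := FreeAlgebra.lift ℂ p

@[simp] lemma ev_ι {B : Type} [CStarAlgebra B] (p : I → B) (i : I) :
    ev p (FreeAlgebra.ι ℂ i) = p i := by simp [ev]

variable {R : ∀ (B : Type) [CStarAlgebra B], (I → B) → Prop}

lemma exists_adj (hR : GoodRel R) (x : FreeAlgebra ℂ I) : ∃ y : FreeAlgebra ℂ I,
    ∀ (B : Type) [CStarAlgebra B] (p : I → B), R B p → star (ev p x) = ev p y := by
  obtain ⟨σ, hσ⟩ := hR.star
  induction x using FreeAlgebra.induction with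
  | grade0 r =>
    refine ⟨algebraMap ℂ _ (star r), fun B _ p _ => ?_⟩
    rw [AlgHom.commutes, AlgHom.commutes]
    exact (algebraMap_star_comm r).symm
  | grade1 i => exact ⟨FreeAlgebra.ι ℂ (σ i), fun B _ p hp => by rw [ev_ι, ev_ι, hσ B p hp]⟩
  | mul a b ha hb =>
    obtain ⟨y, hy⟩ := ha
    obtain ⟨z, hz⟩ := hb
    exact ⟨z * y, fun B _ p hp => by rw [map_mul, star_mul, hy B p hp, hz B p hp, map_mul]⟩
  | add a b ha hb =>
    obtain ⟨y, hy⟩ := ha
    obtain ⟨z, hz⟩ := hb
    exact ⟨y + z, fun B _ p hp => by rw [map_add, star_add, hy B p hp, hz B p hp, map_add]⟩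

lemma norm_one_le {B : Type} [CStarAlgebra B] : ‖(1 : B)‖ ≤ 1 := by
  rcases subsingleton_or_nontrivial B with h | h
  · rw [Subsingleton.elim (1 : B) 0, norm_zero]; exact zero_le_one
  · exact (CStarRing.norm_one).le

lemma ev_bdd (hR : GoodRel R) (x : FreeAlgebra ℂ I) : ∃ C : ℝ, 0 ≤ C ∧
    ∀ (B : Type) [CStarAlgebra B] (p : I → B), R B p → ‖ev p x‖ ≤ C := by
  induction x using FreeAlgebra.induction with
  | grade0 r =>
    refine ⟨‖r‖, norm_nonneg _, fun B _ p _ => ?_⟩
    rw [AlgHom.commutes, Algebra.algebraMap_eq_smul_one, norm_smul]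
    have := norm_one_le (B := B)
    nlinarith [norm_nonneg r]
  | grade1 i => exact ⟨1, zero_le_one, fun B _ p hp => by rw [ev_ι]; exact hR.norm B p hp i⟩
  | mul a b ha hb =>
    obtain ⟨C, hC0, hC⟩ := ha
    obtain ⟨D, hD0, hD⟩ := hb
    refine ⟨C * D, mul_nonneg hC0 hD0, fun B _ p hp => ?_⟩
    rw [map_mul]
    exact (norm_mul_le _ _).trans (mul_le_mul (hC B p hp) (hD B p hp) (norm_nonneg _) hC0)
  | add a b ha hb =>
    obtain ⟨C, hC0, hC⟩ := ha
    obtain ⟨D, hD0, hD⟩ := hb
    refine ⟨C + D, add_nonneg hC0 hD0, fun B _ p hp => ?_⟩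
    rw [map_add]
    exact (norm_add_le _ _).trans (add_le_add (hC B p hp) (hD B p hp))

/-! ### The algebra generated by one representation -/

section generic

variable {P : Type} [CStarAlgebra P] (V : I → P) (hR : GoodRel R) (hV : R P V)

include hR hV in
lemma range_star {a : P} (ha : a ∈ (ev V).range) : star a ∈ (ev V).range := by
  obtain ⟨x, rfl⟩ := ha
  obtain ⟨y, hy⟩ := exists_adj hR x
  exact ⟨y, (hy P V hV).symm⟩

/-- the star algebra generated by the family -/
def galg : StarSubalgebra ℂ P where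
  toSubalgebra := (ev V).range
  star_mem' := fun ha => range_star V hR hV ha

/-- its closure -/
def GS : StarSubalgebra ℂ P := (galg V hR hV).topologicalClosure

instance : IsClosed (GS V hR hV : Set P) := StarSubalgebra.isClosed_topologicalClosure _

/-- the closure as a type -/
def GT : Type := GS V hR hV

instance : CStarAlgebra (GT V hR hV) := by
  exact (inferInstance : CStarAlgebra (GS V hR hV))

/-- the inclusion -/
def incl : GT V hR hV →⋆ₐ[ℂ] P := (GS V hR hV).subtype

lemma incl_inj : Function.Injective (incl V hR hV) := Subtype.val_injective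

lemma incl_norm (x : GT V hR hV) : ‖incl V hR hV x‖ = ‖x‖ := rfl

lemma V_mem (i : I) : V i ∈ GS V hR hV := by
  apply StarSubalgebra.le_topologicalClosure
  refine ⟨FreeAlgebra.ι ℂ i, ?_⟩
  change ev V (FreeAlgebra.ι ℂ i) = _
  rw [ev_ι]

/-- the family in the closure -/
def uG (i : I) : GT V hR hV := (⟨V i, V_mem V hR hV i⟩ : GS V hR hV)

lemma incl_uG (i : I) : incl V hR hV (uG V hR hV i) = V i := rfl

lemma incl_ev (x : FreeAlgebra ℂ I) : incl V hR hV (ev (uG V hR hV) x) = ev V x := by
  induction x using FreeAlgebra.induction with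
  | grade0 r => rw [AlgHom.commutes, AlgHom.commutes, AlgHomClass.commutes]
  | grade1 i => rw [ev_ι, ev_ι, incl_uG]
  | mul a b ha hb => rw [map_mul, map_mul, map_mul, ha, hb]
  | add a b ha hb => rw [map_add, map_add, map_add, ha, hb]

lemma dense_ev : DenseRange (ev (uG V hR hV)) := by
  intro a
  rw [Metric.mem_closure_iff]
  intro δ hδ
  have ha : (incl V hR hV a) ∈ closure ((galg V hR hV : StarSubalgebra ℂ P) : Set P) := by
    rw [← StarSubalgebra.topologicalClosure_coe]
    exact a.2
  obtain ⟨_, ⟨x, rfl⟩, hx⟩ := Metric.mem_closure_iff.mp ha δ hδ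
  refine ⟨_, ⟨x, rfl⟩, ?_⟩
  rw [dist_eq_norm, ← incl_norm, map_sub, incl_ev, ← dist_eq_norm]
  exact hx

/-- a family with the largest norm is universal -/
theorem univ_of_norm (hmax : ∀ (B : Type) [CStarAlgebra B] (v : I → B), R B v →
    ∀ x : FreeAlgebra ℂ I, ‖ev v x‖ ≤ ‖ev V x‖) (B : Type) [CStarAlgebra B] (v : I → B)
    (hv : R B v) : ∃ φ : GT V hR hV →⋆ₐ[ℂ] B, ∀ i, φ (uG V hR hV i) = v i := by
  have hn : ∀ x : FreeAlgebra ℂ I, ‖(ev v).toLinearMap x‖ ≤
      1 * ‖(ev (uG V hR hV)).toLinearMap x‖ := by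
    intro x
    rw [one_mul]
    have := hmax B v hv x
    rw [← incl_ev V hR hV, incl_norm] at this
    exact this
  let φ : GT V hR hV →L[ℂ] B :=
    (ev v).toLinearMap.extendOfNorm (ev (uG V hR hV)).toLinearMap
  have hφ : ∀ x, φ (ev (uG V hR hV) x) = ev v x := by
    intro x
    exact LinearMap.extendOfNorm_eq (f := (ev v).toLinearMap)
      (e := (ev (uG V hR hV)).toLinearMap) (dense_ev V hR hV) ⟨1, hn⟩ x
  have hmul : ∀ a b, φ (a * b) = φ a * φ b := by
    intro a b
    refine DenseRange.induction_on₂ (p := fun a b => φ (a * b) = φ a * φ b)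
      (dense_ev V hR hV) ?_ ?_ a b
    · exact isClosed_eq (by fun_prop) (by fun_prop)
    · intro x y
      rw [← map_mul, hφ, hφ, hφ, map_mul]
  have hvV : ∀ i, star (uG V hR hV i) = uG V hR hV (hR.star.choose i) := by
    intro i
    apply incl_inj V hR hV
    rw [map_star, incl_uG, incl_uG]
    exact hR.star.choose_spec P V hV i
  have hstar : ∀ a, φ (star a) = star (φ a) := by
    intro a
    refine DenseRange.induction_on (p := fun a => φ (star a) = star (φ a))
      (dense_ev V hR hV) a ?_ ?_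
    · exact isClosed_eq (by fun_prop) (by fun_prop)
    · intro x
      obtain ⟨y, hy⟩ := exists_adj hR x
      have h1 : star (ev (uG V hR hV) x) = ev (uG V hR hV) y := by
        apply incl_inj V hR hV
        rw [map_star, incl_ev, incl_ev]
        exact hy P V hV
      rw [h1, hφ, hφ, hy B v hv]
  have hone : φ 1 = 1 := by
    have h1 := hφ 1
    rw [map_one (ev (uG V hR hV)), map_one (ev v)] at h1
    exact h1
  have hcom : ∀ r : ℂ, φ (algebraMap ℂ (GT V hR hV) r) = algebraMap ℂ B r := by
    intro r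
    rw [Algebra.algebraMap_eq_smul_one, Algebra.algebraMap_eq_smul_one, map_smul, hone]
  refine ⟨{ toFun := φ
            map_one' := hone
            map_mul' := hmul
            map_zero' := map_zero φ
            map_add' := map_add φ
            commutes' := hcom
            map_star' := hstar }, ?_⟩
  intro i
  have := hφ (FreeAlgebra.ι ℂ i)
  rw [ev_ι, ev_ι] at this
  exact this

end generic

/-! ### Existence -/

section exist

variable (R) in
/-- a family satisfying the relations in a nonzero C*-algebra -/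
structure RepD : Type 1 where
  B : Type
  inst : CStarAlgebra B
  nt : Nontrivial B
  v : I → B
  hv : R B v

instance (r : RepD R) : CStarAlgebra r.B := r.inst
instance (r : RepD R) : Nontrivial r.B := r.nt

lemma exists_near (hR : GoodRel R) [Nonempty (RepD R)] (x : FreeAlgebra ℂ I) (n : ℕ) :
    ∃ r : RepD R, ∀ (B : Type) [CStarAlgebra B] (v : I → B), R B v →
      ‖ev v x‖ ≤ ‖ev r.v x‖ + 1 / (n + 1) := by
  obtain ⟨C, _, hC⟩ := ev_bdd hR x
  have hbdd : BddAbove (Set.range fun r : RepD R => ‖ev r.v x‖) := by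
    refine ⟨C, ?_⟩
    rintro _ ⟨r, rfl⟩
    exact hC r.B r.v r.hv
  have hpos : (0 : ℝ) < 1 / (n + 1) := by positivity
  obtain ⟨r, hr⟩ := exists_lt_of_lt_ciSup (f := fun r : RepD R => ‖ev r.v x‖)
    (show (⨆ r : RepD R, ‖ev r.v x‖) - 1 / (n + 1) < ⨆ r : RepD R, ‖ev r.v x‖ by linarith)
  refine ⟨r, fun B _ v hv => ?_⟩
  rcases subsingleton_or_nontrivial B with h | h
  · rw [Subsingleton.elim (ev v x) 0, norm_zero]
    have := norm_nonneg (ev r.v x)
    linarith
  · have h1 : ‖ev v x‖ ≤ ⨆ r : RepD R, ‖ev r.v x‖ :=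
      le_ciSup hbdd (⟨B, inferInstance, h, v, hv⟩ : RepD R)
    linarith

variable (hR : GoodRel R) [Nonempty (RepD R)]

/-- an almost optimal representation -/
def nearR (i : FreeAlgebra ℂ I × ℕ) : RepD R := (exists_near hR i.1 i.2).choose

lemma nearR_spec (i : FreeAlgebra ℂ I × ℕ) (B : Type) [CStarAlgebra B] (v : I → B)
    (hv : R B v) : ‖ev v i.1‖ ≤ ‖ev (nearR hR i).v i.1‖ + 1 / (i.2 + 1) :=
  (exists_near hR i.1 i.2).choose_spec B v hv

/-- the product of the C*-algebras -/
abbrev PP : Type := lp (fun i : FreeAlgebra ℂ I × ℕ => (nearR hR i).B) ∞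

noncomputable instance : CStarAlgebra (PP hR) where

/-- the product family -/
def VV (j : I) : PP hR := ⟨fun i => (nearR hR i).v j, memℓp_infty ⟨1, by
  rintro _ ⟨i, rfl⟩
  exact hR.norm _ _ (nearR hR i).hv j⟩⟩

/-- the coordinates -/
def coord (i : FreeAlgebra ℂ I × ℕ) : PP hR →⋆ₐ[ℂ] (nearR hR i).B where
  toFun f := f i
  map_one' := rfl
  map_mul' _ _ := rfl
  map_zero' := rfl
  map_add' _ _ := rfl
  commutes' r := by
    rw [Algebra.algebraMap_eq_smul_one, Algebra.algebraMap_eq_smul_one]
    rfl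
  map_star' _ := rfl

lemma VV_rel : R (PP hR) (VV hR) := by
  refine hR.coords (PP hR) _ (fun i => (nearR hR i).B) (fun i => coord hR i) ?_ _ ?_
  · intro a ha
    apply lp.ext
    funext i
    exact ha i
  · intro i
    exact (nearR hR i).hv

lemma coord_ev (x : FreeAlgebra ℂ I) (i : FreeAlgebra ℂ I × ℕ) :
    coord hR i (ev (VV hR) x) = ev (nearR hR i).v x := by
  induction x using FreeAlgebra.induction with
  | grade0 r => rw [AlgHom.commutes, AlgHom.commutes, AlgHomClass.commutes]
  | grade1 j => rw [ev_ι, ev_ι]; rfl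
  | mul a b ha hb => rw [map_mul, map_mul, map_mul, ha, hb]
  | add a b ha hb => rw [map_add, map_add, map_add, ha, hb]

theorem norm_VV (B : Type) [CStarAlgebra B] (v : I → B) (hv : R B v) (x : FreeAlgebra ℂ I) :
    ‖ev v x‖ ≤ ‖ev (VV hR) x‖ := by
  refine le_of_forall_pos_le_add fun ε hε => ?_
  obtain ⟨n, hn⟩ := exists_nat_one_div_lt hε
  have h1 := nearR_spec hR (x, n) B v hv
  have h2 : ‖(ev (VV hR) x : PP hR) (x, n)‖ ≤ ‖ev (VV hR) x‖ :=
    lp.norm_apply_le_norm (by simp) _ _
  have h3 : (ev (VV hR) x : PP hR) (x, n) = ev (nearR hR (x, n)).v x := coord_ev hR x (x, n)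
  rw [h3] at h2
  simp only at h1
  linarith

omit [Nonempty (RepD R)] in
/-- **Existence of the universal C*-algebra.** -/
theorem exists_univ (hR : GoodRel R) (hne : Nonempty (RepD R)) :
    ∃ (A : Type) (_ : CStarAlgebra A) (p : I → A), R A p ∧
      Dense (Set.range (ev p)) ∧
      ∀ (B : Type) [CStarAlgebra B] (v : I → B), R B v →
        ∃ φ : A →⋆ₐ[ℂ] B, ∀ i, φ (p i) = v i := by
  refine ⟨GT (VV hR) hR (VV_rel hR), inferInstance, uG _ hR _, ?_, dense_ev _ hR _, ?_⟩
  · refine hR.coords _ (FreeAlgebra ℂ I × ℕ) (fun i => (nearR hR i).B)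
      (fun i => (coord hR i).comp (incl _ hR _)) ?_ _ ?_
    · intro a ha
      apply incl_inj
      rw [map_zero]
      apply lp.ext
      funext i
      exact ha i
    · intro i
      exact (nearR hR i).hv
  · intro B _ v hv
    exact univ_of_norm (VV hR) hR (VV_rel hR) (fun B _ v hv x => norm_VV hR B v hv x) B v hv

end exist

end Pool.Agent.R899.IG
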